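import Pool.Agent.Helper10.W3.M_Trq
import Pool.Agent.Helper38.CV.M_Far
import Pool.Agent.Helper71.S7.M_DimK
import Pool.Agent.Helper36.S7.M_Split
import Pool.Agent.Helper94.TK7.M_PLAK7
import Pool.Agent.Helper46.TK7.M_EDGK7
import Pool.Agent.Helper96.TK7.M_BALK7
import Pool.Agent.Helper75.TK7.M_TYPK7
import Pool.Agent.Helper8.TK7.M_DIM12
import Pool.Agent.Helper86.TK7.M_DIMEK7
import Pool.Agent.Helper55.TK7.M_DIMOK7
import Pool.Agent.Helper67.TK7.M_E1AK7
import Pool.Agent.Helper77.TK7.M_E1BK7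
import Pool.Agent.Helper89.TK7.M_O1K7
import Pool.Agent.Helper71.TK7.M_UBHK7

/-!
# Project TK: the upper bound for the new symbols of level `3 * 7^n` with `W_3 = +1`, assembled
-/

set_option autoImplicit false

namespace Pool.Agent.Helper76.TK7

open Pool.Agent.Helper4.TK

/-- Values on translated paths. -/
theorem edgK7 : HEdgK := Pool.Agent.Helper46.TK7.hEdgK Pool.Agent.Helper94.TK7.hPlAK

/-- The upper bound for the levels `3 * 7^n`. -/
theorem ubk7 : UBK 7 ddK7 := by
  have pla := Pool.Agent.Helper94.TK7.hPlAK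
  have typ := Pool.Agent.Helper75.TK7.hTypK
  have dim12 := Pool.Agent.Helper8.TK7.hDim12 Pool.Agent.Helper10.W3.hTrq
  have dimK := Pool.Agent.Helper71.S7.hDimK Pool.Agent.Helper10.W3.hTrq
  have split := Pool.Agent.Helper36.S7.hSplit
  have far := Pool.Agent.Helper38.CV.hFar
  exact Pool.Agent.Helper71.TK7.hUBHK Pool.Agent.Helper96.TK7.hBalK
    (Pool.Agent.Helper67.TK7.hE1AK edgK7 pla typ)
    (Pool.Agent.Helper77.TK7.hE1BK edgK7 pla far)
    (Pool.Agent.Helper89.TK7.hO1K edgK7 pla typ far)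
    (Pool.Agent.Helper86.TK7.hDimEK typ dim12 dimK split)
    (Pool.Agent.Helper55.TK7.hDimOK typ dim12 dimK split)

end Pool.Agent.Helper76.TK7
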