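import Pool.Agent.Helper4.TK.Defs
import Pool.Agent.Helper76.S7.StC
import Pool.Agent.Helper78.W3.StC

/-!
# Project TK (level `3 * 7^n`, `W_3 = +1`): upper bound for new symbols

The shape of `Helper76/TK5/StK.lean` (levels `3 * 5^n`, all modules closed: `Pool/Agent/Helper*/TK5/M_*K.lean`) and of `Helper76/TH7/StC7.lean` (levels `2 * 7^n`, `Pool/Agent/Helper*/TH7/M_*H7.lean`) on the plane of W7 (`Helper76/S7/StC.lean`: `Pt`, `trp`, `ng`, `dR`, `anti7`, `inv1`, `inv7`, `Dv`, `Ty`, `Kl`, `Iv`; closed theorems DIMK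
`Pool.Agent.Helper71.S7.hDimK Pool.Agent.Helper10.W3.hTrq`, SPLIT `Pool.Agent.Helper36.S7.hSplit`), with the group of the matrices `(a 7^μ b; 7c d)` of type `KTy` (`Helper4/TK/Defs.lean`: determinant one and `3 ∣ c`, or determinant three and `3 ∣ a, c, d`). Standard matrices have a lower left entry divisible by `3`. RULE FOR REFLECTIONS.
`val π = {u, v} = G(gu) - G(gv)` for the path `π` from `v` to `u`, `F_π(p)` the value at the coordinates `p` of `g`. `b = (0 1; 3 0)` (even exponents, `μ = 1`), `b = (0 1; 21 0)` (odd exponents, `μ = 0`): if `g` has coordinates `p = (x, y)`, then `b⁻¹ g b` has coordinates `swK p = (y/3, 3x)`, `* g *` has `ng p`, `g M` has `trp μ a b c d p` for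
`M = (a 7^μ b; 7c d)` of type `KTy`. `G∘* ≈ G`, `G∘b ≈ -G`. So for `ρ = b M` (up to a scalar): the value of `G` at the path `g ρ π` is `-F_π(trp M (swK p))`; for `ρ = * M`: `F_π(trp M (ng p))`; for `ρ = b * M`: `-F_π(trp M (ng (swK p)))`. All relations and the dimensions `27`, `1197` (odd, `m = 1, 2`), `165` (even, `m = 1`) were
checked by machine. New: the quotients have inner points of order six (dihedral groups of order twelve, DIM12).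
-/

set_option autoImplicit false

namespace Pool.Agent.Helper76.TK7

open Pool.Agent.Helper14.CV (Homog EqC act StFar)
open Pool.Agent.Helper76.S7
open Pool.Agent.Helper4.TK

/-- The matrix `(a, 7^μ b; 7 c, d)` is of type `KTy` and has plane coordinates `(x, y)`. -/
def PlK (μ : ℕ) {q q' : ℕ} (a b c d : ℤ) (x : ZMod q) (y : ZMod q') : Prop :=
  KTy a (7 ^ μ * b) (7 * c) d ∧ (b : ZMod q) = x * a ∧ (c : ZMod q') = y * d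

/-- The entry `Y` (divisible by `3`) of the standard matrix `(1, 7^μ X; 7 Y, 1 + 7^(μ+1) X Y)`, `X = x.val`. -/
noncomputable def rYK (μ : ℕ) {q q' : ℕ} (x : ZMod q) (y : ZMod q') : ℤ :=
  3 * ((y * (3 * (1 - 7 ^ (μ + 1) * ((x.val : ℕ) : ZMod q') * y))⁻¹).val : ℤ)

/-- The value of the symbol of `G` on the path from `g v` to `g u`, `g` the standard matrix with plane coordinates `(x, y)`. -/
noncomputable def edgeK {R : Type} [AddCommGroup R] (μ : ℕ) {q q' : ℕ} (u1 u2 v1 v2 : ℤ)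
    (G : ℤ → ℤ → R) (x : ZMod q) (y : ZMod q') : R :=
  G (u1 + 7 ^ μ * (x.val : ℤ) * u2) (7 * rYK μ x y * u1 + (1 + 7 ^ (μ + 1) * (x.val : ℤ) * rYK μ x y) * u2)
  - G (v1 + 7 ^ μ * (x.val : ℤ) * v2) (7 * rYK μ x y * v1 + (1 + 7 ^ (μ + 1) * (x.val : ℤ) * rYK μ x y) * v2)

/-- PLAK7. The standard matrix is of type `KTy` (first case) and has the right coordinates. Model: `Pool/Agent/Helper76/TK5/M_PLAK.lean` (only `5 → 7`). -/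
def HPlAK : Prop := ∀ (μ r s : ℕ) (x : ZMod (7 ^ r)) (y : ZMod (7 ^ s)),
  PlK μ 1 (x.val : ℤ) (rYK μ x y) (1 + 7 ^ (μ + 1) * (x.val : ℤ) * rYK μ x y) x y

/-- The content of EDGK7. -/
def HEdgK : Prop := ∀ (R : Type) (_ : AddCommGroup R) (μ r s : ℕ) (G : ℤ → ℤ → R),
  SymK 7 (r + μ) (s + 1) G → ∀ (u1 u2 v1 v2 : ℤ), (u1 ≠ 0 ∨ u2 ≠ 0) → (v1 ≠ 0 ∨ v2 ≠ 0) →
  ∀ (x : ZMod (7 ^ r)) (y : ZMod (7 ^ s)) (a b c d : ℤ), PlK μ a b c d x y →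
  edgeK μ u1 u2 v1 v2 G x y = G (a * u1 + 7 ^ μ * b * u2) (7 * c * u1 + d * u2) -
    G (a * v1 + 7 ^ μ * b * v2) (7 * c * v1 + d * v2)

/-- EDGK7 (from PLAK7). Model: `Pool/Agent/Helper45/TK5/M_EDGK.lean` (only `5 → 7`). -/
def StHEdgK : Prop := HPlAK → HEdgK

/-- Balanced new symbols, even exponent `n = 2k`. -/
def BalEK (k : ℕ) (G : ℤ → ℤ → ℂ) : Prop :=
  SymK 7 k k G ∧ EqC (∑ i ∈ Finset.range 7, act 1 (i * 7 ^ (k - 1)) 0 1 G) 0 ∧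
    EqC (∑ i ∈ Finset.range 7, act 1 0 (3 * i * 7 ^ (k - 1)) 1 G) 0 ∧
    EqC (act 0 (-1) 3 0 G) (-G) ∧ EqC (act (-1) 0 0 1 G) G

/-- Balanced new symbols, odd exponent `n = 2k+1`. -/
def BalOK (k : ℕ) (G : ℤ → ℤ → ℂ) : Prop :=
  SymK 7 k (k + 1) G ∧ EqC (∑ i ∈ Finset.range 7, act 1 (i * 7 ^ (k - 1)) 0 1 G) 0 ∧
    EqC (∑ i ∈ Finset.range 7, act 1 0 (3 * i * 7 ^ k) 1 G) 0 ∧
    EqC (act 0 (-1) 21 0 G) (-G) ∧ EqC (act (-1) 0 0 1 G) G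

/-- BALK7. Transport to the balanced form by `D = (1 0; 0 7^k)`. Model: `Pool/Agent/Helper71/TK5/M_BALK.lean` (only `5 → 7`). -/
def HBalK : Prop := ∀ (k : ℕ) (G : ℤ → ℤ → ℂ), 1 ≤ k →
  (NewSymK 7 (2 * k) G → BalEK k (act 1 0 0 (7 ^ k) G)) ∧
  (NewSymK 7 (2 * k + 1) G → BalOK k (act 1 0 0 (7 ^ k) G)) ∧
  (Homog G → EqC (act 1 0 0 (7 ^ k) G) 0 → EqC G 0)

/-! ### Functions on the plane -/

/-- `(x, y) ↦ (y/3, 3x)`. -/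
def swK {m : ℕ} (p : Pt m) : Pt m := (p.2 * (3 : ZMod (7 ^ m))⁻¹, 3 * p.1)

/-- Odd exponent (`μ = 0`): the circle around `1/2`, matrix `(21 -10; 42 -21) = b (2 -1; 21 -10)`. -/
def cOK {m : ℕ} (p : Pt m) : Pt m := trp 0 2 (-1) 3 (-10) (swK p)

/-- Odd exponent: the circle around `1/3`, matrix `(7 -2; 21 -7)`, `b (3 -1; 21 -6) = 3 (7 -2; 21 -7)`. -/
def sgK {m : ℕ} (p : Pt m) : Pt m := trp 0 3 (-1) 3 (-6) (swK p)

/-- Odd exponent: the sum over the rotations of order six around the fixed point of `(3 -1; 21 -6)`. -/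
def sumO {m : ℕ} (F : Pt m → ℂ) (p : Pt m) : ℂ :=
  F p + F (trp 0 3 (-1) 3 (-6) p) + F (trp 0 4 (-1) 3 (-5) p) + F (trp 0 9 (-2) 6 (-9) p) +
    F (trp 0 5 (-1) 3 (-4) p) + F (trp 0 6 (-1) 3 (-3) p)

/-- Even exponent (`μ = 1`): the circle over `[1/2, 2/3]`, matrix `(7 -4; 12 -7)`, `b (12 -7; 21 -12) = 3 (7 -4; 12 -7)`. -/
def c4K {m : ℕ} (p : Pt m) : Pt m := trp 1 12 (-1) 3 (-12) (swK p)

/-- Even exponent: the circle over `[1, 4/3]`, matrix `(7 -8; 6 -7)`, `b (6 -7; 21 -24) = 3 (7 -8; 6 -7)`. -/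
def c7K {m : ℕ} (p : Pt m) : Pt m := trp 1 6 (-1) 3 (-24) (swK p)

/-- Even exponent: the circle over `[2, 8/3]`, matrix `(7 -16; 3 -7)`, `b (3 -7; 21 -48) = 3 (7 -16; 3 -7)`. -/
def c2K {m : ℕ} (p : Pt m) : Pt m := trp 1 3 (-1) 3 (-48) (swK p)

/-- Even exponent: the circle around `7/2`, matrix `(21 -73; 6 -21) = b (2 -7; 21 -73)`. -/
def c3K {m : ℕ} (p : Pt m) : Pt m := trp 1 2 (-1) 3 (-73) (swK p)

/-- Even exponent: the circle around `35/9`, matrix `(35 -136; 9 -35)`, `b (9 -35; 105 -408) = 3 (35 -136; 9 -35)`. -/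
def c0K {m : ℕ} (p : Pt m) : Pt m := trp 1 9 (-5) 15 (-408) (swK p)

/-- Even exponent: the rotation of order two which exchanges `2` and `5/3`, matrix `(21 -37; 12 -21)`, `b * (4 -7; -21 37) = -(21 -37; 12 -21)`. -/
def d5K {m : ℕ} (p : Pt m) : Pt m := trp 1 4 (-1) (-3) 37 (ng (swK p))

/-- Even exponent: the matrix `(14 -11; 9 -7)` which maps `1` to `3/2` and `2/3` to `5/3`, `b * (9 -7; -42 33) = -3 (14 -11; 9 -7)` (not an involution). -/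
def gAK {m : ℕ} (p : Pt m) : Pt m := trp 1 9 (-1) (-6) 33 (ng (swK p))

/-- Even exponent: the matrix `(42 -59; 15 -21)` which maps `3/2` to `8/3` and `4/3` to `3`, `b * (5 -7; -42 59) = -(42 -59; 15 -21)` (not an involution). -/
def gBK {m : ℕ} (p : Pt m) : Pt m := trp 1 5 (-1) (-6) 59 (ng (swK p))

/-- Even exponent: the sum over the rotations of order six around the fixed point of `(81 -301; 21 -78)`. -/
def sumE {m : ℕ} (F : Pt m → ℂ) (p : Pt m) : ℂ :=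
  F p + F (trp 1 81 (-43) 3 (-78) p) + F (trp 1 80 (-43) 3 (-79) p) + F (trp 1 159 (-86) 6 (-159) p) +
    F (trp 1 79 (-43) 3 (-80) p) + F (trp 1 78 (-43) 3 (-81) p)

/-- The maps `r`, `r'` are involutions which generate a dihedral group of order twelve. -/
def Dt {m : ℕ} (r r' : Pt m → Pt m) : Prop :=
  (∀ p, r (r p) = p) ∧ (∀ p, r' (r' p) = p) ∧ ∀ p, r (r' (r (r' (r (r' p))))) = r' (r (r' (r (r' (r p)))))

/-- The types of the eleven elements different from the identity (reflections: type one, rotations: type zero). -/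
def Tt {m : ℕ} (r r' : Pt m → Pt m) : Prop :=
  (Ty 1 r ∧ Ty 1 r' ∧ Ty 1 (fun p => r (r' (r p))) ∧ Ty 1 (fun p => r' (r (r' p))) ∧
    Ty 1 (fun p => r (r' (r (r' (r p))))) ∧ Ty 1 (fun p => r' (r (r' (r (r' p)))))) ∧
  (Ty 0 (fun p => r (r' p)) ∧ Ty 0 (fun p => r' (r p)) ∧ Ty 0 (fun p => r (r' (r (r' p)))) ∧
    Ty 0 (fun p => r' (r (r' (r p)))) ∧ Ty 0 (fun p => r (r' (r (r' (r (r' p)))))))

/-- The content of DIM12. -/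
def HDim12 : Prop := ∀ m : ℕ, 1 ≤ m → ∀ r r' : Pt m → Pt m, Dt r r' → Tt r r' →
  Module.finrank ℂ (inv7 r r' 1 1) = 3 * 49 ^ (m - 1) + 3 * 7 ^ (m - 1)

/-- DIM12 (from TRQ). Average of the traces over the twelve elements of the dihedral group: `36·49^(m-1)` for the identity, `0` for the five rotations (type `0`), `6·7^(m-1)` for each of the six reflections (type `1`, involutions): `(36a + 36b)/12`. Model: the last part (`Dh`, order six) of `Pool/Agent/Helper71/S7/M_DimK.lean` with its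
private lemmas `gen`, `count`, `Av_comp`, `comp_anti` (copy the file; `Fin 12` and `Fin.sum_univ_succ`). -/
def StHDim12 : Prop := Pool.Agent.Helper78.W3.S3Trq → HDim12

/-- TYPK7. The maps above and their types. Proof as TYPK, TYPH7 (`Pool/Agent/Helper44/TK5/M_TYPK.lean`, `Pool/Agent/Helper55/TH7/M_TYPH7.lean`): `trp μ M' (trp μ M p) = trp μ (M M') p`, `trp` does not change under scalars prime to `7`, `swK (trp μ a b c d p) = trp μ d (c/3) (3b) a (swK p)` (`3 ∣ c`),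
`ng (trp μ a b c d p) = trp μ a (-b) (-c) d (ng p)`, `swK (swK p) = p`, `ng (swK p) = swK (ng p)`; so all relations are identities of matrices up to a scalar. Derivatives: `det/a²`, `det/d²` modulo `7` (and `1/3`, `3` for `swK`). `sgK (swK p) = trp 0 3 (-1) 3 (-6) p`, `c3K (c0K p) = trp 1 81 (-43) 3 (-78) p`; the powers of
`(3 -1; 21 -6)` are, up to scalars, `(4 -1; 21 -5)`, `(9 -2; 42 -9)`, `(5 -1; 21 -4)`, `(6 -1; 21 -3)`, those of `(81 -301; 21 -78)` are `(80 -301; 21 -79)`, `(159 -602; 42 -159)`, `(79 -301; 21 -80)`, `(78 -301; 21 -81)` (derivatives `5, 3`; `4, 2`; `6, 6`; `2, 4`; `3, 5`). Reflections: type `1` (a map of type `1` composed with maps of type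
`0` or `1` as indicated has derivatives prime to `7`). -/
def HTypK : Prop := ∀ m : ℕ,
  (Kl (ng : Pt m → Pt m) swK ∧ Ty 0 (ng : Pt m → Pt m) ∧ Ty 1 (swK : Pt m → Pt m) ∧ Ty 1 (fun p : Pt m => ng (swK p))) ∧
  (Kl (dR 0 : Pt m → Pt m) cOK ∧ Ty 0 (dR 0 : Pt m → Pt m) ∧ Ty 1 (cOK : Pt m → Pt m) ∧ Ty 1 (fun p : Pt m => dR 0 (cOK p))) ∧
  (Kl (sgK : Pt m → Pt m) cOK ∧ Ty 1 (sgK : Pt m → Pt m) ∧ Ty 0 (fun p : Pt m => sgK (cOK p))) ∧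
  (Dt (sgK : Pt m → Pt m) swK ∧ Tt (sgK : Pt m → Pt m) swK) ∧
  (Kl (swK : Pt m → Pt m) c4K ∧ Ty 1 (c4K : Pt m → Pt m) ∧ Ty 0 (fun p : Pt m => swK (c4K p))) ∧
  (Kl (dR 1 : Pt m → Pt m) c3K ∧ Ty 0 (dR 1 : Pt m → Pt m) ∧ Ty 1 (c3K : Pt m → Pt m) ∧ Ty 1 (fun p : Pt m => dR 1 (c3K p))) ∧
  (Dt (c3K : Pt m → Pt m) c0K ∧ Tt (c3K : Pt m → Pt m) c0K) ∧
  (Iv (c2K : Pt m → Pt m) ∧ Ty 1 (c2K : Pt m → Pt m)) ∧ (Iv (d5K : Pt m → Pt m) ∧ Ty 1 (d5K : Pt m → Pt m)) ∧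
  (Iv (c7K : Pt m → Pt m) ∧ Ty 1 (c7K : Pt m → Pt m)) ∧ (Ty 1 (gAK : Pt m → Pt m) ∧ Ty 1 (gBK : Pt m → Pt m)) ∧
  (∀ p : Pt m, sgK (swK p) = trp 0 3 (-1) 3 (-6) p ∧ sgK (swK (sgK (swK p))) = trp 0 4 (-1) 3 (-5) p ∧
    sgK (swK (sgK (swK (sgK (swK p))))) = trp 0 9 (-2) 6 (-9) p ∧ swK (sgK (swK (sgK p))) = trp 0 5 (-1) 3 (-4) p ∧
    swK (sgK p) = trp 0 6 (-1) 3 (-3) p) ∧
  (∀ p : Pt m, c3K (c0K p) = trp 1 81 (-43) 3 (-78) p ∧ c3K (c0K (c3K (c0K p))) = trp 1 80 (-43) 3 (-79) p ∧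
    c3K (c0K (c3K (c0K (c3K (c0K p))))) = trp 1 159 (-86) 6 (-159) p ∧ c0K (c3K (c0K (c3K p))) = trp 1 79 (-43) 3 (-80) p ∧
    c0K (c3K p) = trp 1 78 (-43) 3 (-81) p)

/-- The target for odd exponents: `((f, l), s)`, the values `{∞, 0}`, `{∞, 1/2}`, `{∞, 1/3}`. -/
def subOK (m : ℕ) : Submodule ℂ (((Pt m → ℂ) × (Pt m → ℂ)) × (Pt m → ℂ)) where
  carrier := {F | F.1.1 ∈ inv7 (m := m) ng swK 1 1 ∧ F.1.2 ∈ inv7 (m := m) (dR 0) cOK 1 1 ∧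
    F.2 ∈ inv1 (m := m) sgK 1 ∧
    ∀ p : Pt m, sumO F.2 p - sumO F.1.1 p = 0 ∧
      F.2 p + F.2 (cOK p) - F.1.2 p - F.1.2 (sgK p) = 0}
  add_mem' := by
    rintro F F' ⟨h0, h1, h2, h⟩ ⟨h0', h1', h2', h'⟩
    refine ⟨Submodule.add_mem _ h0 h0', Submodule.add_mem _ h1 h1', Submodule.add_mem _ h2 h2',
      fun p => ?_⟩
    obtain ⟨a1, a2⟩ := h p
    obtain ⟨b1, b2⟩ := h' p
    simp only [sumO, Prod.fst_add, Prod.snd_add, Pi.add_apply] at a1 b1 ⊢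
    exact ⟨by linear_combination a1 + b1, by linear_combination a2 + b2⟩
  zero_mem' := ⟨Submodule.zero_mem _, Submodule.zero_mem _, Submodule.zero_mem _,
    by intro p; simp [sumO]⟩
  smul_mem' := by
    rintro c F ⟨h0, h1, h2, h⟩
    refine ⟨Submodule.smul_mem _ c h0, Submodule.smul_mem _ c h1, Submodule.smul_mem _ c h2,
      fun p => ?_⟩
    obtain ⟨a1, a2⟩ := h p
    simp only [sumO, Prod.smul_fst, Prod.smul_snd, Pi.smul_apply, smul_eq_mul] at a1 ⊢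
    exact ⟨by linear_combination c * a1, by linear_combination c * a2⟩

/-- The value `{2/3, 1/2}` in terms of `f = {∞, 0}` and `u = {∞, 2/3}`. -/
def hhK {m : ℕ} (f u : Pt m → ℂ) (p : Pt m) : ℂ := f p - u p - u (swK p)

/-- The value `{3/2, 4/3}` in terms of `u`, `F1 = {∞, 1}`, `F2 = {∞, 2}`, `D = {2, 5/3}`, `C = {4/3, 1}`. -/
def mmK {m : ℕ} (u F1 F2 D C : Pt m → ℂ) (p : Pt m) : ℂ :=
  F1 p - F2 p - D p - C p - u (gAK p) + F1 (gAK p)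

/-- The value `{2, 8/3}`. -/
def zzK {m : ℕ} (u F1 F2 D C F3 : Pt m → ℂ) (p : Pt m) : ℂ :=
  F3 p - F2 p + mmK u F1 F2 D C (gBK p)

/-- `J - F3 - F3∘c3K`. -/
def yyK {m : ℕ} (F3 J : Pt m → ℂ) (p : Pt m) : ℂ := J p - F3 p - F3 (c3K p)

/-- The target for even exponents: `(((f, u), (F1, F2)), ((D, C), (F3, J)))`, the values `{∞, 0}`, `{∞, 2/3}`, `{∞, 1}`, `{∞, 2}`, `{2, 5/3}`, `{4/3, 1}`, `{∞, 3}`, `{4, 11/3}`. -/
def subEK (m : ℕ) : Submodule ℂ ((((Pt m → ℂ) × (Pt m → ℂ)) × ((Pt m → ℂ) × (Pt m → ℂ))) ×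
    (((Pt m → ℂ) × (Pt m → ℂ)) × ((Pt m → ℂ) × (Pt m → ℂ)))) where
  carrier := {F | (F.1.1.1 ∈ inv7 (m := m) ng swK 1 1 ∧ F.1.1.2 ∈ anti7 m ∧ F.1.2.1 ∈ anti7 m ∧ F.1.2.2 ∈ anti7 m) ∧
    (F.2.1.1 ∈ inv1 (m := m) d5K 1 ∧ F.2.1.2 ∈ inv1 (m := m) c7K (-1) ∧ F.2.2.1 ∈ anti7 m ∧
      F.2.2.2 ∈ inv1 (m := m) c3K 1) ∧
    (∀ p : Pt m, hhK F.1.1.1 F.1.1.2 p + hhK F.1.1.1 F.1.1.2 (c4K p) = 0) ∧
    (∀ p : Pt m, zzK F.1.1.2 F.1.2.1 F.1.2.2 F.2.1.1 F.2.1.2 F.2.2.1 p +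
      zzK F.1.1.2 F.1.2.1 F.1.2.2 F.2.1.1 F.2.1.2 F.2.2.1 (c2K p) = 0) ∧
    (∀ p : Pt m, yyK F.2.2.1 F.2.2.2 p - yyK F.2.2.1 F.2.2.2 (dR 1 p) = 0) ∧
    (∀ p : Pt m, sumE F.2.2.2 p = 0)}
  add_mem' := by
    rintro F F' ⟨⟨h0, h1, h2, h3⟩, ⟨h4, h5, h6, h7⟩, e0, e1, e2, e3⟩ ⟨⟨h0', h1', h2', h3'⟩, ⟨h4', h5', h6', h7'⟩, e0', e1', e2', e3'⟩
    refine ⟨⟨Submodule.add_mem _ h0 h0', (anti7 m).add_mem h1 h1', (anti7 m).add_mem h2 h2', (anti7 m).add_mem h3 h3'⟩,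
      ⟨Submodule.add_mem _ h4 h4', Submodule.add_mem _ h5 h5', (anti7 m).add_mem h6 h6', Submodule.add_mem _ h7 h7'⟩,
      fun p => ?_, fun p => ?_, fun p => ?_, fun p => ?_⟩
    · have a := e0 p
      have b := e0' p
      simp only [hhK, Prod.fst_add, Prod.snd_add, Pi.add_apply] at a b ⊢
      linear_combination a + b
    · have a := e1 p
      have b := e1' p
      simp only [zzK, mmK, Prod.fst_add, Prod.snd_add, Pi.add_apply] at a b ⊢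
      linear_combination a + b
    · have a := e2 p
      have b := e2' p
      simp only [yyK, Prod.fst_add, Prod.snd_add, Pi.add_apply] at a b ⊢
      linear_combination a + b
    · have a := e3 p
      have b := e3' p
      simp only [sumE, Prod.snd_add, Pi.add_apply] at a b ⊢
      linear_combination a + b
  zero_mem' := ⟨⟨Submodule.zero_mem _, (anti7 m).zero_mem, (anti7 m).zero_mem, (anti7 m).zero_mem⟩,
    ⟨Submodule.zero_mem _, Submodule.zero_mem _, (anti7 m).zero_mem, Submodule.zero_mem _⟩,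
    by intro p; simp [hhK], by intro p; simp [zzK, mmK], by intro p; simp [yyK], by intro p; simp [sumE]⟩
  smul_mem' := by
    rintro c F ⟨⟨h0, h1, h2, h3⟩, ⟨h4, h5, h6, h7⟩, e0, e1, e2, e3⟩
    refine ⟨⟨Submodule.smul_mem _ c h0, (anti7 m).smul_mem c h1, (anti7 m).smul_mem c h2, (anti7 m).smul_mem c h3⟩,
      ⟨Submodule.smul_mem _ c h4, Submodule.smul_mem _ c h5, (anti7 m).smul_mem c h6, Submodule.smul_mem _ c h7⟩,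
      fun p => ?_, fun p => ?_, fun p => ?_, fun p => ?_⟩
    · have a := e0 p
      simp only [hhK, Prod.smul_fst, Prod.smul_snd, Pi.smul_apply, smul_eq_mul] at a ⊢
      linear_combination c * a
    · have a := e1 p
      simp only [zzK, mmK, Prod.smul_fst, Prod.smul_snd, Pi.smul_apply, smul_eq_mul] at a ⊢
      linear_combination c * a
    · have a := e2 p
      simp only [yyK, Prod.smul_snd, Prod.smul_fst, Pi.smul_apply, smul_eq_mul] at a ⊢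
      linear_combination c * a
    · have a := e3 p
      simp only [sumE, Prod.smul_snd, Pi.smul_apply, smul_eq_mul] at a ⊢
      linear_combination c * a

/-- The content of DIMOK7. -/
def HDimOK : Prop := ∀ m : ℕ, 1 ≤ m →
  Module.finrank ℂ (subOK m) = 24 * 49 ^ (m - 1) + 3 * 7 ^ (m - 1)

/-- DIMOK7 (from TYPK7, DIM12, DIMK, SPLIT of W7). `a = 49^(m-1)`, `b = 7^(m-1)`. `Vf = inv7 ng swK 1 1`, `Vl = inv7 (dR 0) cOK 1 1` have dimension `9a + 3b` (types `0, 1, 1`), `Vs = inv1 sgK 1` has `18a + 3b`, `VD = inv7 sgK swK 1 1` has `3a + 3b` (DIM12), `VB = inv7 sgK cOK 1 1` has `9a + 3b` (types `1, 1, 0`). The map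
`((f, l), s) ↦ (sumO s - sumO f, s + s∘cOK - l - l∘sgK)` from `(Vf × Vl) × Vs` to `VD × VB` is onto (by TYPK7 `sumO F = ∑_{i<6} F∘(sgK∘swK)^i`, so `sumO s` and `sumO f` are invariant under `sgK` and `swK`): given `(φ, ψ)` let (SPLIT, `μ = 0`) `φ/12 = f0 + l0`, `ψ/4 = f1 + l1`, `f0, f1` invariant under `ng`, `l0, l1` under `dR 0`; `u = l0 + f1`,
`s = u + u∘sgK`, `v = f1 - f0`, `f = v + v∘swK`, `w = l0 - l1`, `l = w + w∘cOK`. Then `u - v = φ/12`, and `sumO s - sumO f` is the sum of `u - v` over the dihedral group of order twelve, `= φ`; `u - w = ψ/4`, and `s + s∘cOK - l - l∘sgK` is the sum of `u - w` over the group of order four of `sgK`, `cOK`, `= ψ`. The kernel is `subOK m`: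
`(9a+3b) + (9a+3b) + (18a+3b) - (3a+3b) - (9a+3b)`. Models: `Pool/Agent/Helper7/TH7/M_DIMOH7.lean`, `Pool/Agent/Helper94/TK5/M_DIMOK.lean`. -/
def StHDimOK : Prop := HTypK → HDim12 → S7DimK → S7Split → HDimOK

/-- The content of DIMEK7. -/
def HDimEK : Prop := ∀ m : ℕ, 1 ≤ m → Module.finrank ℂ (subEK m) = 168 * 49 ^ (m - 1) - 3 * 7 ^ (m - 1)

/-- DIMEK7 (from TYPK7, DIM12, DIMK, SPLIT of W7). `V = anti7 m` has dimension `36a`, `Vf = inv7 ng swK 1 1` has `9a + 3b`, `VD = inv1 d5K 1`, `VJ = inv1 c3K 1` have `18a + 3b`, `VC = inv1 c7K (-1)` has `18a - 3b`; targets `T0 = inv7 swK c4K 1 1` (`9a + 3b`, types `1, 1, 0`), `T2 = inv1 c2K 1` (`18a + 3b`), `T3 = inv7 (dR 1) c3K (-1) 1`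
(`9a`: types `0, 1, 1`), `T4 = inv7 c3K c0K 1 1` (`3a + 3b`, DIM12). The map `F ↦ (h + h∘c4K, z + z∘c2K, y - y∘dR 1, sumE J)`, `h = hhK f u` (invariant under `swK`), `z = zzK u F1 F2 D C F3`, `y = yyK F3 J` (invariant under `c3K`), from `((Vf × V) × (V × V)) × ((VD × VC) × (V × VJ))` to `(T0 × T2) × (T3 × T4)` is onto
(`gAK`, `gBK` are of type `1` and preserve `anti7 m`; by TYPK7 `sumE F = ∑_{i<6} F∘(c3K∘c0K)^i`): given `(φ0, φ2, φ3, φ4)` take `J = φ4/6` (`sumE J = φ4`), `D = C = 0`, `u = F1 = F2 = g`, `F3 = g + φ2/2`, `f = v + v∘swK` with `v` invariant under `ng`: then `mmK = 0`, `z = φ2/2`, `z + z∘c2K = φ2`; the first condition is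
`(1 + c4K)(1 + swK)(v - g) = φ0`, true if `g = v - φ0/4`; the third is `(1 - dR 1)(J - (1 + c3K)(g + φ2/2)) = φ3`, true if `g = w - χ/4`, `w` invariant under `dR 1`, `χ = φ3 - (1 - dR 1)(J - (1 + c3K)(φ2/2))` (`χ∘dR 1 = -χ`, `χ∘c3K = χ`, so `(1 - dR 1)(1 + c3K)(χ/4) = χ`). By SPLIT (`μ = 1`) `φ0/4 - χ/4 = f0 + l0`, `f0` invariant under `ng`,
`l0` under `dR 1`: `v = f0`, `w = -l0`, `g = f0 - φ0/4`. The kernel is `subEK m`: `(9a+3b) + 36a·4 + (18a+3b) + (18a-3b) + (18a+3b) - (9a+3b) - (18a+3b) - 9a - (3a+3b) = 168a - 3b`. Models: `Pool/Agent/Helper53/TH7/M_DIMEH7.lean`, `Pool/Agent/Helper56/TK5/M_DIMEK.lean`. -/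
def StHDimEK : Prop := HTypK → HDim12 → S7DimK → S7Split → HDimEK

/-! ### Representatives -/

/-- Fifty-six representatives with bottom row `≡ ±(0, 1)` modulo `3` (of the classes of `SL₂(ℤ)` modulo `(* 7*; 21* *)`). -/
def LK01 : List (ℤ × ℤ × ℤ × ℤ) :=
  [(4, 1, 3, 1), (-2, 3, 3, -5), (-7, -5, 3, 2), (-1, 2, 0, -1), (2, 1, 9, 5), (1, -1, 3, -2), (-5, 3, 3, -2),
   (1, 2, 3, 7), (11, -4, 3, -1), (-4, -7, 3, 5), (-2, 1, 3, -2), (1, 0, 6, 1), (7, 1, 6, 1), (1, 1, 6, 7),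
   (-5, -2, 3, 1), (-7, 2, 3, -1), (-5, -11, 6, 13), (-1, -2, 0, -1), (-1, 2, 3, -7), (-11, -4, 3, 1), (-1, 0, 3, -1),
   (5, -6, 6, -7), (-1, 3, 0, -1), (7, 2, 3, 1), (5, -11, 6, -13), (-2, -1, 3, 1), (7, -5, 3, -2), (1, -2, 3, -5),
   (4, -7, 3, -5), (-4, 1, 3, -1), (5, -1, 6, -1), (-1, 1, 0, -1), (2, -3, 3, -4), (-4, -3, 3, 2), (-5, -1, 6, 1),
   (-1, -2, 3, 5), (-1, -3, 0, -1), (-1, 0, 0, -1), (-2, -3, 3, 4), (4, -3, 3, -2), (-2, 1, 9, -5), (-1, -1, 0, -1),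
   (5, -2, 3, -1), (-1, 1, 6, -7), (2, -1, 3, -1), (-1, 0, 6, -1), (-1, 1, 3, -4), (-5, -6, 6, 7), (2, 1, 3, 2),
   (-7, 8, 6, -7), (-1, -1, 3, 2), (2, -1, 9, -4), (1, 0, 3, 1), (-2, -1, 9, 4), (1, 1, 3, 4), (-7, 1, 6, -1)]

/-- Fifty-six representatives with bottom row `≡ ±(1, 0)` modulo `3`. -/
def LK10 : List (ℤ × ℤ × ℤ × ℤ) :=
  [(-2, -7, 1, 3), (-2, 1, 5, -3), (7, 4, 5, 3), (-7, 4, 5, -3), (-2, 5, 1, -3), (3, 2, 4, 3), (-1, -1, 1, 0),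
   (4, 11, 1, 3), (1, 2, 4, 9), (1, -1, 1, 0), (-1, 2, 4, -9), (0, -1, 1, 0), (3, 4, 2, 3), (-8, -7, 7, 6),
   (-3, 2, 4, -3), (2, -1, 7, -3), (-3, -5, 2, 3), (2, -1, 1, 0), (1, -1, 7, -6), (-1, -2, 2, 3), (0, -1, 1, 6),
   (-1, -1, 4, 3), (1, -4, 1, -3), (0, -1, 1, -3), (-1, 2, 1, -3), (3, -1, 1, 0), (-3, -1, 1, 0), (-1, -4, 1, 3),
   (-3, -2, 5, 3), (-11, 5, 13, -6), (-2, -1, 1, 0), (1, 1, 2, 3), (-1, -1, 7, 6), (6, 5, 7, 6), (0, -1, 1, -6),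
   (-2, -1, 7, 3), (-3, 4, 2, -3), (1, -7, 1, -6), (-5, 7, 2, -3), (1, 2, 1, 3), (-1, -2, 5, 9), (1, -1, 4, -3),
   (-1, 5, 1, -6), (-1, 1, 2, -3), (5, 7, 2, 3), (-6, 5, 7, -6), (1, -2, 5, -9), (-4, 11, 1, -3), (2, 1, 5, 3),
   (0, -1, 1, 3), (-1, -7, 1, 6), (1, -2, 2, -3), (2, -7, 1, -3), (1, 5, 1, 6), (11, 5, 13, 6), (2, 5, 1, 3)]

/-- Fifty-six representatives with bottom row `≡ ±(1, 1)` modulo `3`. -/
def LK11 : List (ℤ × ℤ × ℤ × ℤ) :=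
  [(2, 1, 1, 1), (-1, 3, 2, -7), (1, -1, 5, -4), (-1, 1, 4, -5), (3, -1, 7, -2), (13, 3, 4, 1), (-1, -2, 1, 1),
   (1, -1, 2, -1), (1, 2, 2, 5), (-3, 5, 1, -2), (-3, 4, 5, -7), (0, -1, 1, 7), (-2, -1, 5, 2), (1, 3, 1, 4),
   (3, 1, 5, 2), (2, 1, 7, 4), (2, -5, 1, -2), (-2, -3, 1, 1), (1, 0, 7, 1), (3, 7, 2, 5), (-3, 1, 2, -1),
   (-7, -3, 5, 2), (1, 0, 4, 1), (-1, -3, 2, 5), (6, 11, 7, 13), (-3, -13, 1, 4), (5, -3, 2, -1), (0, -1, 1, 1),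
   (-4, 1, 7, -2), (-2, 3, 1, -2), (-1, 0, 2, -1), (-1, 0, 5, -1), (3, -4, 4, -5), (-12, -5, 5, 2), (4, -1, 5, -1),
   (-3, -4, 1, 1), (1, 6, 1, 7), (0, -1, 1, -2), (-3, -1, 4, 1), (-4, 3, 5, -4), (1, 0, 1, 1), (3, -7, 1, -2),
   (3, -2, 2, -1), (-1, 4, 1, -5), (-5, 2, 2, -1), (4, -3, 7, -5), (0, -1, 1, 4), (-1, -2, 4, 7), (1, -4, 2, -7),
   (-1, 1, 1, -2), (0, -1, 1, -5), (-7, 3, 2, -1), (3, 2, 1, 1), (-11, -6, 13, 7), (1, -3, 1, -2), (-6, -1, 7, 1)]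

/-- Fifty-six representatives with bottom row `≡ ±(1, 2)` modulo `3`. -/
def LK12 : List (ℤ × ℤ × ℤ × ℤ) :=
  [(0, -1, 1, -1), (0, -1, 1, -4), (-3, -7, 1, 2), (-1, -1, 5, 4), (-1, 0, 4, -1), (-1, -3, 1, 2), (3, 1, 2, 1),
   (-4, -1, 5, 1), (-6, 11, 7, -13), (-1, -1, 2, 1), (1, 1, 4, 5), (-5, 12, 2, -5), (-3, -4, 4, 5), (1, 3, 2, 7),
   (-3, 1, 5, -2), (-4, -3, 7, 5), (2, 3, 1, 2), (11, -6, 13, -7), (1, -3, 2, -5), (5, 2, 2, 1), (7, 3, 2, 1),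
   (6, -1, 7, -1), (-1, 3, 1, -4), (-3, 2, 1, -1), (4, 3, 5, 4), (-4, 3, 1, -1), (-2, 1, 7, -4), (2, -3, 1, -1),
   (7, -3, 5, -2), (-3, -1, 7, 2), (-5, -3, 2, 1), (0, -1, 1, -7), (3, 4, 5, 7), (4, 1, 7, 2), (0, -1, 1, 2),
   (3, -13, 1, -4), (1, -2, 4, -7), (-2, 1, 1, -1), (-1, 6, 1, -7), (-1, 2, 2, -5), (1, 0, 2, 1), (-1, 0, 7, -1),
   (2, -1, 5, -2), (1, 4, 1, 5), (-1, -4, 2, 7), (-3, -2, 2, 1), (-13, 3, 4, -1), (1, 0, 5, 1), (3, 5, 1, 2),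
   (1, -2, 1, -1), (-2, -5, 1, 2), (-3, 7, 2, -5), (1, 1, 1, 2), (-1, 0, 1, -1), (3, -1, 4, -1), (0, -1, 1, 5)]

/-- The thirty-two representatives of `Γ₀(21) \ SL₂(ℤ)`. -/
def LKO : List (ℤ × ℤ × ℤ × ℤ) :=
  [(1, 1, 3, 4), (-1, 0, 0, -1), (1, -1, 3, -2), (-1, -1, 3, 2), (-1, 1, 3, -4), (-1, 2, 3, -7), (1, 0, 3, 1),
   (-1, 0, 3, -1), (-2, -1, 7, 3), (0, -1, 1, 0), (1, -1, 4, -3), (0, -1, 1, 3), (-1, 1, 2, -3), (0, -1, 1, -3),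
   (1, 1, 2, 3), (-1, -1, 4, 3), (2, 1, 7, 4), (0, -1, 1, 4), (1, 0, 4, 1), (-1, -3, 2, 5), (0, -1, 1, -2),
   (0, -1, 1, 1), (-1, -2, 4, 7), (-1, 0, 2, -1), (0, -1, 1, -4), (1, -2, 4, -7), (-3, 1, 5, -2), (-1, 0, 4, -1),
   (0, -1, 1, 2), (-1, 0, 1, -1), (-2, 1, 7, -4), (1, 0, 2, 1)]

/-- The content of E1AK7. -/
def HE1aK : Prop := ∀ (k : ℕ) (G : ℤ → ℤ → ℂ), 2 ≤ k → BalEK k G →
  ((((fun p : Pt (k - 1) => edgeK 1 1 0 0 1 G p.1 p.2), (fun p : Pt (k - 1) => edgeK 1 1 0 2 3 G p.1 p.2)),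
    ((fun p : Pt (k - 1) => edgeK 1 1 0 1 1 G p.1 p.2), (fun p : Pt (k - 1) => edgeK 1 1 0 2 1 G p.1 p.2))),
    (((fun p : Pt (k - 1) => edgeK 1 2 1 5 3 G p.1 p.2), (fun p : Pt (k - 1) => edgeK 1 4 3 1 1 G p.1 p.2)),
    ((fun p : Pt (k - 1) => edgeK 1 1 0 3 1 G p.1 p.2), (fun p : Pt (k - 1) => edgeK 1 4 1 11 3 G p.1 p.2)))) ∈ subEK (k - 1)

/-- E1AK7 (from EDGK7, PLAK7, TYPK7). Even exponent, `m = k - 1`, `μ = 1`: `f = {∞, 0}`, `u = {∞, 2/3}`, `F1 = {∞, 1}`, `F2 = {∞, 2}`, `D = {2, 5/3}`, `C = {4/3, 1}`, `F3 = {∞, 3}`, `J = {4, 11/3}`. (i) `anti7`: `(1 i7^(k-1); 0 1) g` has coordinates `(x + i 7^(k-2), y)`, `(1 0; 3i7^(k-1) 1) g` has `(x, y + 3i 7^(k-2))` for standard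
`g` (`i ↦ 3i` is a bijection modulo `7`). (ii) By the rule at the head of this file: `f(ng p) = f(p)`, `f(swK p) = -{0, ∞} = f(p)`; `D(d5K p) = -{5/3, 2} = D(p)`; `C(c7K p) = -C(p)` (`(7 -8; 6 -7)` fixes `1`, `4/3`); `J(c3K p) = -{11/3, 4} = J(p)` (`(21 -73; 6 -21)` exchanges `4` and `11/3`). (iii) `u(swK p) = -{0, 1/2}`,
`hhK f u p = {∞, 0} - {∞, 2/3} + {0, 1/2} = {2/3, 1/2}` (as `{u,v} = G(gu) - G(gv)`), and `(7 -4; 12 -7)` fixes `1/2`, `2/3`: `hhK (c4K p) = -hhK p`. (iv) `u(gAK p) - F1(gAK p) = -{3/2, 5/3}` (`(14 -11; 9 -7)` maps `1, 2/3` to `3/2, 5/3`), so `mmK p = {∞,1} - {∞,2} - {2,5/3} - {4/3,1} + {3/2,5/3} = {3/2, 4/3}`;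
`mmK (gBK p) = -{8/3, 3}` (`(42 -59; 15 -21)` maps `3/2, 4/3` to `8/3, 3`), `zzK p = {∞,3} - {∞,2} - {8/3,3} = {2, 8/3}`, and `(7 -16; 3 -7)` fixes `2`, `8/3`: `zzK (c2K p) = -zzK p`. (v) `F3(c3K p) = -{7/2, 10/3}`, `yyK p = {4,11/3} - {∞,3} + {7/2,10/3}`; `dR 1` is `(-1 7; 0 1)` (`x ↦ 7 - x`): `yyK (dR 1 p) = {3,10/3} - {∞,4} + {7/2,11/3}`,
the same value. (vi) The six rotations of `sumE` map `{4, 11/3}` to `{4,11/3}`, `{23/6,4}`, `{19/5,23/6}`, `{34/9,19/5}`, `{15/4,34/9}`, `{11/3,15/4}`: the sum is zero. Models: `Pool/Agent/Helper55/TK5/M_E1AK.lean`, `Pool/Agent/Helper69/TH7/M_E1AH7.lean`. -/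
def StHE1aK : Prop := HEdgK → HPlAK → HTypK → HE1aK

/-- The content of E1BK7. -/
def HE1bK : Prop := ∀ (k : ℕ) (G : ℤ → ℤ → ℂ), 2 ≤ k → BalEK k G →
  (∀ x y : ZMod (7 ^ (k - 1)), ((edgeK 1 1 0 0 1 G x y = 0 ∧ edgeK 1 1 0 2 3 G x y = 0) ∧
    (edgeK 1 1 0 1 1 G x y = 0 ∧ edgeK 1 1 0 2 1 G x y = 0)) ∧
    ((edgeK 1 2 1 5 3 G x y = 0 ∧ edgeK 1 4 3 1 1 G x y = 0) ∧
    (edgeK 1 1 0 3 1 G x y = 0 ∧ edgeK 1 4 1 11 3 G x y = 0))) → EqC G 0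

/-- E1BK7 (from EDGK7, PLAK7, FAR). `~` as in E1BH of TH (`Pool/Agent/Helper74/TH/M_E1BH.lean`), invariant under `(a 7b; 7c d)` of type `KTy`, `*`, `b = (0 1; 3 0)`. Given: `∞ ~ 0`, `∞ ~ 2/3`, `∞ ~ 1`, `∞ ~ 2`, `2 ~ 5/3`, `4/3 ~ 1`, `∞ ~ 3`, `4 ~ 11/3`; `∞ ~ 4` (`∞ ~ -3` by `(1 7; 0 1)`): all these are equivalent, with `*` also
their negatives. Then (apply the word, then the matrix to a known equivalence): `∞ ~ 1/3` (`0 ~ 1` by `b`); `∞ ~ 1/6` (`0 ~ 2` by `b`); `∞ ~ 1/2` (`0 ~ 2/3` by `b`); `∞ ~ 1/4` (`0 ~ 4/3` by `b`); `∞ ~ 1/5` (`0 ~ 5/3` by `b`); `2/3 ~ 4/7` (`1/2 ~ ∞` by `(-12 7; -21 12)`); `4/7 ~ 3/5` (`∞ ~ 1/3` by `(-12 7; -21 12)`); `-1 ~ -7/6` (`-1/3 ~ 0` by `(24 7; -21 -6)`); `∞ ~ 2/7` (`0 ~ 7/6` by `b`); `-7/6 ~ -8/7` (`0 ~ ∞` by `(24 7; -21 -6)`); `1/2 ~ 3/7` (`-5/3 ~ ∞` by `(-9 -14; -21 -33)`); `3/7 ~ 2/5` (`∞ ~ -4/3`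 by `(-9 -14; -21 -33)`); `0 ~ 5/6` (`∞ ~ 2/5` by `b`); `5/6 ~ 4/5` (`-4/3 ~ -1` by `(-17 -21; -21 -26)`); `5/3 ~ 3/2` (`-1/2 ~ -1/3` by `(-33 -14; -21 -9)`); `0 ~ 2/9` (`∞ ~ 3/2` by `b`); `2/3 ~ 3/4` (`2 ~ 5/3` by `(-15 28; -21 39)`); `2 ~ 7/3` (`1/6 ~ 0` by `(-48 7; -21 3)`); `0 ~ 1/7` (`∞ ~ 7/3` by `b`); `7/3 ~ 5/2` (`∞ ~ 3` by `b`, `(-48 7; -21 3)`); `7/3 ~ 12/5` (`∞ ~ 4` by `b`, `(-48 7; -21 3)`); `5/6 ~ 6/7` (`3 ~ ∞` by `(-18 49; -21 57)`); `3/2 ~ 7/5` (`-1 ~ -6/7` by `b`, `(-33 -14; -21 -9)`); `-11/3 ~ -7/2` (`-4 ~ ∞` by `b`, `(73 7; -21 -2)`); `-6/7 ~ -11/13` (`∞ ~ 11/3` by `(-18 77; 21 -90)`); `∞ ~ 10/3` (`∞ ~ -11/3` by `(1 7; 0 1)`); `-10/3 ~ -13/4` (`-10/3 ~ -3` by `b`, `(480 49; -147 -15)`). With `*`: `∞, 0, ±1, ±1/2, ±2, ±3, ±1/3, ±3/2, ±2/3, ±3/4, ±4/3, ±4, ±1/4, ±2/5, ±4/5, ±5/3, ±1/5, ±3/5, ±5/2, ±1/6, ±5/6, ±3/7,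 ±2/7, ±7/3, ±6/7, ±7/6, ±4/7, ±1/7, ±7/2, ±7/5, ±8/7, ±2/9, ±11/3, ±12/5, ±13/4, ±11/13` are equivalent: both cusps of every matrix in `LK01`, `LK10`, `LK11`, `LK12`. Every matrix of `SL₂(ℤ)` is `g' ρ`, `g' = (a 7b; 21c d)` of determinant one,
`ρ` in the list of the class of its bottom row modulo `3` up to sign (`decide` on `ZMod 7` for each list: exactly one `ρ` satisfies `7 ∣ q r1 - p r2`, `7 ∣ r r4 - s r3`). FAR. Models: `Pool/Agent/Helper25/TK5/M_E1BK.lean`, `Pool/Agent/Helper51/TH7/M_E1BH7.lean`. -/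
def StHE1bK : Prop := HEdgK → HPlAK → StFar → HE1bK

/-- The content of O1K7. -/
def HO1K : Prop := ∀ (k : ℕ) (G : ℤ → ℤ → ℂ), 1 ≤ k → BalOK k G →
  ((((fun p : Pt k => edgeK 0 1 0 0 1 G p.1 p.2), (fun p : Pt k => edgeK 0 1 0 1 2 G p.1 p.2)),
    (fun p : Pt k => edgeK 0 1 0 1 3 G p.1 p.2)) ∈ subOK k) ∧
  ((∀ x y : ZMod (7 ^ k), edgeK 0 1 0 0 1 G x y = 0 ∧ edgeK 0 1 0 1 2 G x y = 0 ∧
    edgeK 0 1 0 1 3 G x y = 0) → EqC G 0)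

/-- O1K7 (from EDGK7, PLAK7, TYPK7, FAR). Odd exponent, `m = k`, `μ = 0`, `b = (0 1; 21 0)`: `f = {∞, 0}`, `l = {∞, 1/2}`, `s = {∞, 1/3}`. `f(ng p) = f(p)`, `f(swK p) = f(p)`; `l(dR 0 p) = l(p)`, `l(cOK p) = -{1/2, ∞} = l(p)` (`(21 -10; 42 -21)`); `s(sgK p) = -{1/3, ∞} = s(p)` (`(7 -2; 21 -7)`). The rotations of `sumO` map `∞` to
`∞, 1/7, 4/21, 3/14, 5/21, 2/7`, `0` to `0, 1/6, 1/5, 2/9, 1/4, 1/3` and `1/3` to `1/3, 0, 1/6, 1/5, 2/9, 1/4`: `sumO s = sumO f`. Square `∞, 1/3, 3/7, 1/2`: `s(cOK p) = -{1/2, 3/7}`, `l(sgK p) = -{1/3, 3/7}`: `s(p) + s(cOK p) - l(p) - l(sgK p) = {∞,1/3} - {1/2,3/7} - {∞,1/2} + {1/3,3/7} = 0`. Injectivity (`~` as in E1BK7 for `(a b; 7c d)` of type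
`KTy`): given `∞ ~ 0`, `∞ ~ 1/2`, `∞ ~ 1/3`; `∞ ~ -1` (`∞ ~ 0` by `(1 -1; 0 1)`); `-1/3 ~ -2/7` (`0 ~ ∞` by `(-6 -1; 21 3)`); `2/7 ~ 1/4` (`1/3 ~ ∞` by `b`, `(5 -1; 21 -4)`); `-1 ~ -2/3` (`0 ~ 1/3` by `(1 -1; 0 1)`); `-2/3 ~ -3/5` (`-1/3 ~ -1/2` by `(13 5; -21 -8)`); with `*`: `∞, 0, ±1, ±1/2, ±1/3, ±1/4, ±3/5, ±2/7` are equivalent: both cusps of every
matrix in `LKO`; every matrix of `SL₂(ℤ)` is `g' ρ` with `g'` in `Γ₀(21)` and `ρ` in `LKO` (bottom rows modulo `21` up to units; `decide` on `ZMod 7` and `ZMod 3` separately if `ZMod 21` is too slow). FAR. Models: `Pool/Agent/Helper53/TK5/M_O1K.lean`, `Pool/Agent/Helper3/TH7/M_O1H7.lean`. -/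
def StHO1K : Prop := HEdgK → HPlAK → HTypK → StFar → HO1K

/-- The dimension of the new symbols of level `3 * 7^n` (`W = -1`, `* = +1`), `n ≥ 3`. -/
def ddK7 (n : ℕ) : ℕ :=
  if n % 2 = 1 then 24 * 49 ^ (n / 2 - 1) + 3 * 7 ^ (n / 2 - 1) else 168 * 49 ^ (n / 2 - 2) - 3 * 7 ^ (n / 2 - 2)

/-- UBHK7. For `n = 2k ≥ 4` the map to the eight functions in `subEK (k-1)`, of dimension `ddK7 n`; for `n = 2k+1 ≥ 3` the map to the three functions in `subOK k`, of dimension `ddK7 n`. Models: `Pool/Agent/Helper80/TK5/M_UBHK.lean`, `Pool/Agent/Helper33/TH7/M_UBH7.lean`. -/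
def StHUBK : Prop := HBalK → HE1aK → HE1bK → HO1K → HDimEK → HDimOK → UBK 7 ddK7

end Pool.Agent.Helper76.TK7
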